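import Pool.Agent.Q255.RM.Final

/-!
# The moments of almost every twist of zeta on the critical line, with square root remainder

Q1 asks for `∫_0^T |ζ(1/2+it)|^(2k) dt = main term + O(T^(1/2+ε))` for every `k`.  Here `ζ(1/2+it)` is replaced
by the sum `Z(t) = ∑_{n ≤ t} f(n) n^(-1/2-it)` (which for `f = 1` is `ζ(1/2+it) + O(t^(-1/2))`), where `f` is a
unimodular completely multiplicative function.  For almost every `f` the law holds for all `k` and `ε`, with
the main term `∫_0^T D_k(t) dt`, `D_k(t) = ∑_m d_{k,t}(m)^2 / m` (`d_{k,t}(m)` = number of ways to write `m` as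
an ordered product of `k` factors at most `t`); and the exponent `1/2` is the true one in mean square.
-/

set_option autoImplicit false

open MeasureTheory Finset

namespace Pool.Agent.Results.MP_07318d_nt.AlmostEveryTwist

/-- The uniform distribution on the angles `ω 0, ω 1, ω 2, …` (independent, uniform on the circle `ℝ/ℤ`). -/
noncomputable def uniform : Measure (ℕ → UnitAddCircle) :=
  Measure.infinitePi fun _ => (volume : Measure UnitAddCircle)

/-- The completely multiplicative function with the value `exp(2 π i ω_p)` at the prime `p`. -/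
noncomputable def twist (ω : ℕ → UnitAddCircle) (n : ℕ) : ℂ :=
  ∏ p ∈ n.primeFactors, ((ω p).toCircle : ℂ) ^ n.factorization p

/-- `Z(t) = ∑_{1 ≤ n ≤ t} f(n) n^(-1/2 - i t)`. -/
noncomputable def Z (ω : ℕ → UnitAddCircle) (t : ℝ) : ℂ :=
  ∑ n ∈ Icc 1 ⌊t⌋₊, twist ω n * (n : ℂ) ^ (-(1 / 2 + t * Complex.I) : ℂ)

/-- The number of `k`-tuples of integers of `[1, N]` with product `m`. -/
def tuples (k N m : ℕ) : ℕ :=
  ((Fintype.piFinset fun _ : Fin k => Icc 1 N).filter fun v => ∏ i, v i = m).card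

/-- `∑_m tuples(m)^2 / m`. -/
noncomputable def diagonal (k N : ℕ) : ℝ := ∑ m ∈ Icc 1 (N ^ k), (tuples k N m : ℝ) ^ 2 / m

/-- The remainder of the moment of order `2k`. -/
noncomputable def remainder (k : ℕ) (ω : ℕ → UnitAddCircle) (T : ℝ) : ℝ :=
  ∫ t in (0 : ℝ)..T, (‖Z ω t‖ ^ (2 * k) - diagonal k ⌊t⌋₊)

/-- (1) For almost every `ω`, for all `k` and `ε > 0`, `remainder = O(T^(1/2+ε))`.
(2) For all `k ≥ 1`, `N ≥ 24` the mean square over `ω` of the remainder at `T = N` is at least `N / 200`. -/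
theorem result :
    (∀ᵐ ω ∂uniform, ∀ k : ℕ, ∀ ε : ℝ, 0 < ε → ∃ C : ℝ, ∀ T : ℝ, 1 ≤ T →
      |remainder k ω T| ≤ C * T ^ (1 / 2 + ε)) ∧
    (∀ k N : ℕ, 1 ≤ k → 24 ≤ N → (N : ℝ) / 200 ≤ ∫ ω, remainder k ω N ^ 2 ∂uniform) := by
  constructor
  · have h : ∀ᵐ ω ∂uniform, ∀ k n : ℕ, ∃ C : ℝ, ∀ T : ℝ, 1 ≤ T →
        |remainder k ω T| ≤ C * T ^ (1 / 2 + 1 / ((n : ℝ) + 1)) := by
      rw [ae_all_iff]
      intro k
      rw [ae_all_iff]
      intro n
      exact Pool.Agent.Q255.RM.ae_R k (1 / ((n : ℝ) + 1)) (by positivity)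
    filter_upwards [h] with ω hω k ε hε
    obtain ⟨n, hn⟩ := exists_nat_one_div_lt hε
    obtain ⟨C, hC⟩ := hω k n
    refine ⟨|C|, fun T hT => (hC T hT).trans ?_⟩
    have h1 : T ^ (1 / 2 + 1 / ((n : ℝ) + 1)) ≤ T ^ (1 / 2 + ε) :=
      Real.rpow_le_rpow_of_exponent_le hT (by linarith)
    calc C * T ^ (1 / 2 + 1 / ((n : ℝ) + 1)) ≤ |C| * T ^ (1 / 2 + 1 / ((n : ℝ) + 1)) :=
          mul_le_mul_of_nonneg_right (le_abs_self C) (by positivity)
      _ ≤ |C| * T ^ (1 / 2 + ε) := mul_le_mul_of_nonneg_left h1 (abs_nonneg C)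
  · intro k N hk hN
    exact Pool.Agent.Q255.RM.mean_square_ge k N hk hN

end Pool.Agent.Results.MP_07318d_nt.AlmostEveryTwist
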