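import Pool.Agent.Q80.SF.Bk2
import Pool.Agent.Q80.SF.Eqv

/-!
# The band of the moments of zeta, and moments with a power saving from fewer sample points

Let `f(t) = |ζ(1/2 + it)|^{2k}`, `k ≥ 1` an integer.

* (spectrum) In every Gaussian window at `T`, of width `1 ≤ U ≤ T / log T`, the Fourier transform of `f` at
  the frequency `ω` is at most `T^{(k+1)/2+ε} e^{-|ω|/2} + T^{-B}`. Hence it is at most `T^a` as soon as
  `|ω| > (k + 1 - 2a) log T`, for every `a > 1/2`; for `a = k/2 + 1/2` this is trivial, for `a` near `1`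
  the band is `(k - 1) log T`, for `a` near `1/2` it is `k log T`.
* (Boas-Kac) `|∫ f w e^{-iκ log T t}| ≤ cos(π/(N+2)) ∫ f w + T^a` when `κ (N + 1) > k + 1 - 2a`.
* (quadrature) for every `a > 1/2` and every `δ` with `δ (k + 1 - 2a) < 1`, Riemann sums of `f` of any step
  `h ≤ 2πδ / log T` give the windowed integrals with the error `T^a`, and the formula `∫_0^T f = J(T) + O(T^a)`
  holds iff it holds for the Riemann sums.

Proof: on the critical line `f = ζ(s)^{2k} χ(1-s)^k`; the line of integration is moved to `Re s = 1 + η`, the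
Dirichlet series is integrated term by term, each term is an oscillatory integral of the `k`-th power of the
factor of the functional equation, bounded uniformly in the frequency by `T^{1/2}` times the size of the
integrand. Poisson summation then gives the quadrature.
-/

set_option autoImplicit false

open MeasureTheory Filter

namespace Pool.Agent.Results.MP_07318d_nt.BandOfTheMoment

noncomputable section

/-- `|ζ(1/2 + it)|^{2k}` -/
def f (k : ℕ) (t : ℝ) : ℝ := ‖riemannZeta (1 / 2 + t * Complex.I)‖ ^ (2 * k)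

/-- the Gaussian window of width `U` at `T` -/
def window (T U t : ℝ) : ℝ := Real.exp (-((t - T) / U) ^ 2)

/-- the Fourier transform of the density `f` times the window, at the frequency `ω` -/
def fourier (k : ℕ) (T U ω : ℝ) : ℂ :=
  ∫ t : ℝ, ((f k t * window T U t : ℝ) : ℂ) * Complex.exp (-(Complex.I * ω * t))

/-- the moment with a sharp cut-off -/
def moment (k : ℕ) (T : ℝ) : ℝ := ∫ t in (0 : ℝ)..T, f k t

/-- the Riemann sum of step `h` with a sharp cut-off -/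
def discrete (k : ℕ) (T h : ℝ) : ℝ := h * ∑ n ∈ Finset.Icc 1 ⌊T / h⌋₊, f k (n * h)

/-- the largest step: `δ` times the mean distance `2π / log T` of the zeros at height `T` -/
def step (δ T : ℝ) : ℝ := 2 * Real.pi * δ / Real.log T

theorem f_eq : f = Q97.QQ.zf := by
  funext k t
  unfold f Q97.QQ.zf Q97.BS.pt
  norm_num

theorem fw_eq (k : ℕ) (T U : ℝ) : (fun t => f k t * window T U t) = Q97.QQ.fw k T U := by
  rw [f_eq]
  rfl

theorem fourier_eq (k : ℕ) (T U ω : ℝ) : fourier k T U ω = _root_.Q80.SF.fF k T U ω := by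
  unfold fourier _root_.Q80.SF.fF
  have e : ∀ t : ℝ, f k t * window T U t = Q97.QQ.fw k T U t := fun t => congrFun (fw_eq k T U) t
  simp only [e]

theorem result (k : ℕ) (hk : 1 ≤ k) :
    (∀ ε : ℝ, 0 < ε → ∀ B : ℕ, ∀ᶠ T : ℝ in atTop, ∀ U : ℝ, 1 ≤ U → U ≤ T / Real.log T → ∀ ω : ℝ,
      ‖fourier k T U ω‖ ≤ T ^ (((k : ℝ) + 1) / 2 + ε) * Real.exp (-(|ω| / 2)) + 1 / T ^ B) ∧
    (∀ (κ a : ℝ) (N : ℕ), 0 < κ → 1 / 2 < a → k + 1 - 2 * a < κ * (N + 1) →
      ∀ᶠ T : ℝ in atTop, ∀ U : ℝ, 1 ≤ U → U ≤ T / Real.log T →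
        ‖fourier k T U (κ * Real.log T)‖ ≤
          Real.cos (Real.pi / (N + 2 : ℕ)) * (∫ t, f k t * window T U t) + T ^ a) ∧
    ∀ δ a : ℝ, 0 < δ → 1 / 2 < a → δ * (k + 1 - 2 * a) < 1 →
      (∀ᶠ T : ℝ in atTop, ∀ U : ℝ, 1 ≤ U → U ≤ T / Real.log T → ∀ h : ℝ, 0 < h →
        h ≤ step δ T → ∀ θ : ℝ,
          Integrable (fun t => f k t * window T U t) ∧
          Summable (fun n : ℤ => f k (θ + n * h) * window T U (θ + n * h)) ∧
          |h * ∑' n : ℤ, f k (θ + n * h) * window T U (θ + n * h) -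
            ∫ t, f k t * window T U t| ≤ T ^ a) ∧
      (∃ C : ℝ, ∀ᶠ T : ℝ in atTop, ∀ h : ℝ, 0 < h → h ≤ step δ T →
        |discrete k T h - moment k T| ≤ 2 * (∫ t, f k t * window T 1 t) + C * T ^ a) ∧
      (∀ J : ℝ → ℝ, (∃ C : ℝ, ∀ᶠ T : ℝ in atTop, |J (T + 1) - J T| ≤ C * T ^ a) →
        ((∃ C : ℝ, ∀ᶠ T : ℝ in atTop, |moment k T - J T| ≤ C * T ^ a) ↔
          (∃ C : ℝ, ∀ᶠ T : ℝ in atTop, ∀ h : ℝ, 0 < h → h ≤ step δ T →
            |discrete k T h - J T| ≤ C * T ^ a))) ∧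
      (∀ P : Polynomial ℝ,
        ((∃ C : ℝ, ∀ᶠ T : ℝ in atTop,
            |moment k T - ∫ t in (0 : ℝ)..T, P.eval (Real.log (t / (2 * Real.pi)))| ≤ C * T ^ a) ↔
          (∃ C : ℝ, ∀ᶠ T : ℝ in atTop, ∀ h : ℝ, 0 < h → h ≤ step δ T →
            |discrete k T h - ∫ t in (0 : ℝ)..T, P.eval (Real.log (t / (2 * Real.pi)))| ≤
              C * T ^ a))) := by
  refine ⟨fun ε hε B => ?_, fun κ a N hκ ha hκa => ?_, fun δ a hδ ha hδa => ?_⟩
  · filter_upwards [_root_.Q80.SF.spectrum hk hε B, eventually_ge_atTop 3] with T h1 hT U hU1 hU2 ω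
    rw [fourier_eq]
    exact h1 U ⟨hT, hU1, hU2⟩ ω
  · filter_upwards [_root_.Q80.SF.bk hk hκ N ha hκa, eventually_ge_atTop 3] with T h1 hT U hU1 hU2
    rw [fourier_eq, fw_eq]
    exact h1 U ⟨hT, hU1, hU2⟩
  · have h3 : ∀ J : ℝ → ℝ, (∃ C : ℝ, ∀ᶠ T : ℝ in atTop, |J (T + 1) - J T| ≤ C * T ^ a) →
        ((∃ C : ℝ, ∀ᶠ T : ℝ in atTop, |moment k T - J T| ≤ C * T ^ a) ↔
          (∃ C : ℝ, ∀ᶠ T : ℝ in atTop, ∀ h : ℝ, 0 < h → h ≤ step δ T →
            |discrete k T h - J T| ≤ C * T ^ a)) := by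
      intro J hJ
      unfold moment discrete step
      rw [f_eq]
      exact _root_.Q80.SF.equiv' hk hδ ha hδa J hJ
    refine ⟨?_, ?_, h3, fun P => ?_⟩
    · filter_upwards [_root_.Q80.SF.quad_w hk hδ ha hδa, eventually_ge_atTop 3] with T h1 hT U hU1 hU2 h
        hh hh2 θ
      obtain ⟨a1, a2⟩ := h1 U ⟨hT, hU1, hU2⟩
      obtain ⟨a3, a4⟩ := a2 h hh hh2 θ
      have e : ∀ t : ℝ, f k t * window T U t = Q97.QQ.fw k T U t := fun t =>
        congrFun (fw_eq k T U) t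
      simp only [e]
      exact ⟨a1, a3, a4⟩
    · obtain ⟨C, -, hC⟩ := _root_.Q80.SF.edge' hk hδ ha hδa
      refine ⟨C, ?_⟩
      filter_upwards [hC] with T h1 h hh hh2
      rw [fw_eq k T 1]
      unfold discrete moment
      rw [f_eq]
      exact h1 h hh hh2
    · exact h3 (Q97.QQ.JP P) (Q97.QQ.JP_inc P (by linarith))

end

end Pool.Agent.Results.MP_07318d_nt.BandOfTheMoment
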