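import Pool.Agent.Q97.QQ.Blk
import Pool.Agent.Q97.QQ.Pol

/-!
# The moments of zeta are exactly the Riemann sums of step `2πδ / log T`, `δ < 1/k`

Let `f(t) = |ζ(1/2 + it)|^{2k}`, `k ≥ 1` an integer, and `0 < δ < 1/k`. Let `0 < h ≤ 2πδ / log T`.

* In all windows `exp(-((t-T)/U)²)`, `1 ≤ U ≤ T / log T`, the integral of `f` and its Riemann sum over
  any arithmetic progression of step `h` differ by at most `T^{-B}`, for every `B`.
* With a sharp cut-off, `|h ∑_{0 < nh ≤ T} f(nh) - ∫_0^T f| ≤ 2 ∫ f(t) exp(-(t-T)²) dt + C`.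
* Hence, for every main term `J` whose increments `J(T+1) - J(T)` are `O(T^a)`, the formula
  `∫_0^T f = J(T) + O(T^a)` holds iff `h ∑_{0 < nh ≤ T} f(nh) = J(T) + O(T^a)` uniformly in
  `0 < h ≤ 2πδ / log T`; in particular for `J(T) = ∫_0^T P(log(t/2π)) dt`, `P` a polynomial.

The function `f` is replaced by the restriction to the critical line of the entire function
`(ζ(s)ζ(1-s) (e^{iλ(s-1)} - 1)(e^{iλs} - 1))^k` times a Gaussian, `λ = (log T)²/(2kT)`, whose Fourier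
transform is estimated by a shift of the line of integration; then Poisson summation is applied.
-/

set_option autoImplicit false

open MeasureTheory Filter

namespace Pool.Agent.Results.MP_07318d_nt.ExactQuadrature

noncomputable section

/-- `|ζ(1/2 + it)|^{2k}` -/
def f (k : ℕ) (t : ℝ) : ℝ := ‖riemannZeta (1 / 2 + t * Complex.I)‖ ^ (2 * k)

/-- the Gaussian window of width `U` at `T` -/
def window (T U t : ℝ) : ℝ := Real.exp (-((t - T) / U) ^ 2)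

/-- the moment with a sharp cut-off -/
def moment (k : ℕ) (T : ℝ) : ℝ := ∫ t in (0 : ℝ)..T, f k t

/-- the Riemann sum of step `h` with a sharp cut-off -/
def discrete (k : ℕ) (T h : ℝ) : ℝ := h * ∑ n ∈ Finset.Icc 1 ⌊T / h⌋₊, f k (n * h)

/-- the largest step: `δ` times the mean distance `2π / log T` of the zeros at height `T` -/
def step (δ T : ℝ) : ℝ := 2 * Real.pi * δ / Real.log T

theorem f_eq : f = Q97.QQ.zf := by
  funext k t
  unfold f Q97.QQ.zf Q97.BS.pt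
  norm_num

theorem fw_eq (k : ℕ) (T U : ℝ) : (fun t => f k t * window T U t) = Q97.QQ.fw k T U := by
  rw [f_eq]
  rfl

theorem result (k : ℕ) (hk : 1 ≤ k) (δ : ℝ) (hδ : 0 < δ) (hδk : δ < 1 / k) :
    (∀ B : ℕ, ∀ᶠ T : ℝ in atTop, ∀ U : ℝ, 1 ≤ U → U ≤ T / Real.log T → ∀ h : ℝ, 0 < h →
      h ≤ step δ T → ∀ θ : ℝ,
        Integrable (fun t => f k t * window T U t) ∧
        Summable (fun n : ℤ => f k (θ + n * h) * window T U (θ + n * h)) ∧
        |h * ∑' n : ℤ, f k (θ + n * h) * window T U (θ + n * h) -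
          ∫ t, f k t * window T U t| ≤ 1 / T ^ B) ∧
    (∃ C : ℝ, ∀ᶠ T : ℝ in atTop, ∀ h : ℝ, 0 < h → h ≤ step δ T →
      |discrete k T h - moment k T| ≤ 2 * (∫ t, f k t * window T 1 t) + C) ∧
    (∀ a : ℝ, 0 ≤ a → ∀ J : ℝ → ℝ,
      (∃ C : ℝ, ∀ᶠ T : ℝ in atTop, |J (T + 1) - J T| ≤ C * T ^ a) →
      ((∃ C : ℝ, ∀ᶠ T : ℝ in atTop, |moment k T - J T| ≤ C * T ^ a) ↔
        (∃ C : ℝ, ∀ᶠ T : ℝ in atTop, ∀ h : ℝ, 0 < h → h ≤ step δ T →
          |discrete k T h - J T| ≤ C * T ^ a))) ∧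
    (∀ a : ℝ, 0 < a → ∀ P : Polynomial ℝ,
      ((∃ C : ℝ, ∀ᶠ T : ℝ in atTop,
          |moment k T - ∫ t in (0 : ℝ)..T, P.eval (Real.log (t / (2 * Real.pi)))| ≤ C * T ^ a) ↔
        (∃ C : ℝ, ∀ᶠ T : ℝ in atTop, ∀ h : ℝ, 0 < h → h ≤ step δ T →
          |discrete k T h - ∫ t in (0 : ℝ)..T, P.eval (Real.log (t / (2 * Real.pi)))| ≤
            C * T ^ a))) := by
  have h3 : ∀ a : ℝ, 0 ≤ a → ∀ J : ℝ → ℝ,
      (∃ C : ℝ, ∀ᶠ T : ℝ in atTop, |J (T + 1) - J T| ≤ C * T ^ a) →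
      ((∃ C : ℝ, ∀ᶠ T : ℝ in atTop, |moment k T - J T| ≤ C * T ^ a) ↔
        (∃ C : ℝ, ∀ᶠ T : ℝ in atTop, ∀ h : ℝ, 0 < h → h ≤ step δ T →
          |discrete k T h - J T| ≤ C * T ^ a)) := by
    intro a ha J hJ
    unfold moment discrete step
    rw [f_eq]
    exact Q97.QQ.equiv hk hδ hδk ha J hJ
  refine ⟨fun B => ?_, ?_, h3, fun a ha P => ?_⟩
  · filter_upwards [Q97.QQ.exact hk hδ hδk B, eventually_ge_atTop 3] with T h1 hT U hU1 hU2 h hh hh2 θ
    obtain ⟨a1, a2, a3⟩ := h1 U ⟨hT, hU1, hU2⟩ h hh hh2 θ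
    have e : ∀ t : ℝ, f k t * window T U t = Q97.QQ.fw k T U t := fun t =>
      congrFun (fw_eq k T U) t
    simp only [e]
    exact ⟨a1, a2, a3⟩
  · obtain ⟨C, -, hC⟩ := Q97.QQ.edge hk hδ hδk
    refine ⟨C, ?_⟩
    filter_upwards [hC] with T h1 h hh hh2
    rw [fw_eq k T 1]
    unfold discrete moment
    rw [f_eq]
    exact h1 h hh hh2
  · exact h3 a ha.le (Q97.QQ.JP P) (Q97.QQ.JP_inc P ha)

end

end Pool.Agent.Results.MP_07318d_nt.ExactQuadrature
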