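import Pool.Agent.Q97.RG.Hn

/-!
# Joint moments of minima over horizontal segments and of maxima over discs

Let `L = log T`, `w(t) = exp(-((t-T)/U)²)`, `1 ≤ U ≤ T / L`, and let `M` be the moment of real
order `β = ∑ β_i` of `|ζ(1/2+it)|` with the weight `w`. For polynomials `P_i` let
`g_i = ∑ c_k ζ^(k) / L^k`, `c_k` the coefficients of `P_i`. The joint moments with exponents `β_i`
of the minima of `|g_i|` over the horizontal segments `|σ - 1/2| ≤ A / L` at the heights `t + y_i`,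
`|y_i| ≤ A / L`, and those of the maxima of `|g_i|` over the discs of radius `A / L` about `1/2+it`
have the same order of magnitude as `M`. So the real parts of the shifts may depend on `t` in an
arbitrary way.
-/

set_option autoImplicit false

open MeasureTheory Filter Metric Set
open scoped ENNReal ComplexConjugate

namespace Pool.Agent.Results.MP_07318d_nt.HorizontalMinima

noncomputable section

/-- nonzero polynomials without two roots `μ`, `ν` such that `μ + conj ν = -1` -/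
def Admissible (P : Polynomial ℂ) : Prop :=
  P ≠ 0 ∧ ∀ μ ν : ℂ, P.eval μ = 0 → P.eval ν = 0 → μ + conj ν ≠ -1

/-- the function `∑ c_k ζ^(k)(s) / L^k`, where the `c_k` are the coefficients of `P` -/
def diffZeta (P : Polynomial ℂ) (L : ℝ) (s : ℂ) : ℂ :=
  ∑ k ∈ Finset.range (P.natDegree + 1), P.coeff k * iteratedDeriv k riemannZeta s / (L : ℂ) ^ k

/-- the Gaussian window of width `U` at `T` -/
def window (T U t : ℝ) : ℝ := Real.exp (-((t - T) / U) ^ 2)

/-- the density of the moment of order `β` in the window -/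
def density (β T U t : ℝ) : ℝ := ‖riemannZeta (1 / 2 + t * Complex.I)‖ ^ β * window T U t

/-- the moment of order `β` in the window -/
def moment (β T U : ℝ) : ℝ := ∫ t : ℝ, density β T U t

/-- the product of the powers of the functions at the points `z_i` -/
def product {n : ℕ} (P : Fin n → Polynomial ℂ) (β : Fin n → ℝ) (T : ℝ) (z : Fin n → ℂ) : ℝ :=
  ∏ i, ‖diffZeta (P i) (Real.log T) (z i)‖ ^ β i

theorem moment_eq (β T U : ℝ) : moment β T U = Q97.RB.MB β T U (1 / 2) := by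
  unfold moment density Q97.RB.MB
  have : ∀ t : ℝ, (1 / 2 + t * Complex.I : ℂ) = ((1 / 2 : ℝ) : ℂ) + t * Complex.I := by
    intro t
    norm_num
  simp only [this]
  rfl

theorem diffZeta_eq (P : Polynomial ℂ) (L : ℝ) : diffZeta P L = Q97.RF.dz P L := by
  funext s
  unfold diffZeta Q97.RF.dz
  rw [Polynomial.sum_over_range]
  intro k
  rw [zero_mul, zero_div]

theorem pt_eq (t : ℝ) : (1 / 2 + t * Complex.I : ℂ) = Q97.RD.pp t := by
  unfold Q97.RD.pp
  norm_num

theorem result (n : ℕ) (hn : 0 < n) (P : Fin n → Polynomial ℂ) (β : Fin n → ℝ)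
    (hβ : ∀ i, 0 < β i) (A : ℝ) (hA : 0 ≤ A) :
    (∀ᶠ T : ℝ in atTop, ∀ U : ℝ, 1 ≤ U → U ≤ T / Real.log T →
      Integrable (density (∑ i, β i) T U) ∧ 0 < moment (∑ i, β i) T U) ∧
    (∃ C : ℝ, 0 < C ∧ ∀ᶠ T : ℝ in atTop, ∀ U : ℝ, 1 ≤ U → U ≤ T / Real.log T →
      ∀ z : Fin n → ℝ → ℂ, (∀ i t, ‖z i t - (1 / 2 + t * Complex.I)‖ ≤ A / Real.log T) →
        ∫⁻ t : ℝ, ENNReal.ofReal (product P β T (fun i => z i t) * window T U t) ≤
          ENNReal.ofReal (C * moment (∑ i, β i) T U)) ∧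
    ((∀ i, Admissible (P i)) →
      ∃ c : ℝ, 0 < c ∧ ∀ᶠ T : ℝ in atTop, ∀ U : ℝ, 1 ≤ U → U ≤ T / Real.log T →
        ∀ y : Fin n → ℝ, (∀ i, |y i| ≤ A / Real.log T) → ∀ v : Fin n → ℝ → ℂ,
          (∀ i t, (v i t).im = t + y i ∧ |(v i t).re - 1 / 2| ≤ A / Real.log T) →
            ENNReal.ofReal (c * moment (∑ i, β i) T U) ≤
              ∫⁻ t in {t : ℝ | |t - T| ≤ U * Real.log T / 16},
                ENNReal.ofReal (product P β T (fun i => v i t) * window T U t)) := by
  have : Nonempty (Fin n) := ⟨⟨0, hn⟩⟩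
  have hb0 : 0 < ∑ i, β i := Finset.sum_pos (fun i _ => hβ i) Finset.univ_nonempty
  have hset : ∀ T U : ℝ, {t : ℝ | |t - T| ≤ U * Real.log T / 16} =
      {t : ℝ | |t - T| ≤ 1 / 16 * (U * Real.log T)} := by
    intro T U
    ext t
    rw [Set.mem_ofPred_eq, Set.mem_ofPred_eq, div_eq_inv_mul]
    norm_num
  refine ⟨?_, ?_, fun hP => ?_⟩
  · obtain ⟨c, hc, h⟩ := Q97.RD.HM_cmp hb0
    filter_upwards [h (1 / 8) (by norm_num) (by norm_num), eventually_ge_atTop 3]
      with T h1 hT U hU1 hU2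
    obtain ⟨_, h3⟩ := h1 U ⟨hT, hU1, hU2⟩
    rw [moment_eq]
    refine ⟨?_, lt_of_lt_of_le hc h3⟩
    have h4 := (Q97.RD.zd_int hb0 (T := T) (U := U) ⟨hT, hU1, hU2⟩).1
    have h5 : density (∑ i, β i) T U = Q97.RD.zd (∑ i, β i) T U := by
      funext t
      unfold density Q97.RD.zd
      rw [pt_eq]
      rfl
    rw [h5]
    exact h4
  · obtain ⟨C, hC, h⟩ := Q97.RG.dmax hn P hβ hA
    refine ⟨C, hC, ?_⟩
    filter_upwards [h, eventually_ge_atTop 3] with T h1 hT U hU1 hU2 z hz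
    rw [moment_eq]
    unfold product
    simp only [pt_eq] at hz
    simp only [diffZeta_eq]
    exact h1 U ⟨hT, hU1, hU2⟩ z hz
  · obtain ⟨c, hc, h⟩ := Q97.RG.hmin hn (P := P) hP hβ hA
    refine ⟨c, hc, ?_⟩
    filter_upwards [h, eventually_ge_atTop 3] with T h1 hT U hU1 hU2 y hy v hv
    rw [moment_eq, hset]
    unfold product
    simp only [diffZeta_eq]
    exact h1 U ⟨hT, hU1, hU2⟩ v y hy (fun i t => (hv i t).1) (fun i t => (hv i t).2)

end

end Pool.Agent.Results.MP_07318d_nt.HorizontalMinima
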